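import Pool.Agent.K9h91.WI.Final
import Pool.Agent.R693.W.Gen

/-!
# The ascending chain condition on all two-sided ideals for `U(W)`

The enveloping algebra of the Witt algebra over a field of characteristic zero satisfies the ascending
chain condition on ALL two-sided ideals: question (c), hence also (b) and (a).

Idea (see `Pool/Agent/K9h91/WI`).
* A two-sided ideal is determined, along a chain, by its ideal of leading forms in the symmetric algebra
  `S = F[x_m]`, which is stable under the derivations `D_n` (`x_m ↦ (m - n) x_{m + n - 1}`).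
* A nonzero ideal has leading forms containing all `[Δ^N g]`, `g` a Laurent polynomial in `t_1, …, t_d`,
  where `[t^a] = x_{a_1} ⋯ x_{a_d}` and `Δ` is the discriminant (from `Pool/Agent/R693/W`).
* By induction on `d` it remains to bound chains of subspaces of `S[t_1^±, …, t_d^±]` stable under `S` and
  twisted derivations `D_n + ∑ a_{ij} (t_i^n - t_j^n)/(t_i - t_j)` and containing the ideal generated by the
  contractions of the multiples of `∏ (T - t_i)^{r_i}`.  This is proved by induction on the number of
  points and on `∑ r_i`: with extra letters one gets a differential operator `T` with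
  `θ b T P ⊆ P` for all `b` in a subalgebra `B` over which the quotient is a Noetherian module, the
  multiplier `θ` being a product of a Gram determinant and of differences `t_i - t_j`, for which the
  chains modulo `θ^n` are controlled by the induction.
-/

set_option autoImplicit false

namespace Pool.Agent.Results.MP_e28a79_al.ChainAllIdeals

open Pool.Agent.R693

universe u v

/-- `L` is the Witt algebra: it has a basis `e_n`, `n ∈ ℤ`, with `[e_m, e_n] = (m - n) e_{m + n}`. -/
def IsWitt (F : Type u) [Field F] (L : Type v) [LieRing L] [LieAlgebra F L] : Prop :=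
  ∃ b : Module.Basis ℤ F L, ∀ m n : ℤ, ⁅b m, b n⁆ = ((m - n : ℤ) : F) • b (m + n)

section
attribute [local instance 100] LieRing.ofAssociativeRing

variable {F : Type u} [Field F] {L : Type v} [LieRing L] [LieAlgebra F L]

lemma iota_comm (x y : L) : UniversalEnvelopingAlgebra.ι F x * UniversalEnvelopingAlgebra.ι F y -
    UniversalEnvelopingAlgebra.ι F y * UniversalEnvelopingAlgebra.ι F x =
      UniversalEnvelopingAlgebra.ι F ⁅x, y⁆ := by
  rw [LieHom.map_lie, LieRing.of_associative_ring_bracket]

lemma acc_witt [CharZero F] (h : IsWitt F L) (I : ℕ → TwoSidedIdeal (UniversalEnvelopingAlgebra F L))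
    (hI : Monotone I) : ∃ n, ∀ m, n ≤ m → I m = I n := by
  obtain ⟨b, hb⟩ := h
  have hW : W.IsW F (fun n : ℤ => - UniversalEnvelopingAlgebra.ι F (b (n - 1))) := by
    intro m n j hmn
    beta_reduce
    have h2 : (W.Lab.one : ℤ) = 1 := rfl
    have h3 : ∀ k : ℤ, (W.Lab.c k : ℤ) = k := fun k => rfl
    rw [h2] at hmn
    rw [neg_mul_neg, neg_mul_neg, iota_comm, hb, map_smul, h3, h3, smul_neg, ← neg_smul]
    congr 2
    · push_cast
      ring
    · congr 1
      omega
  refine K9h91.WI.acc_all (F := F) hW (W.span_of_adjoin ?_) I hI
  rw [eq_top_iff, ← W.uea_adjoin_basis F b, Algebra.adjoin_le_iff]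
  rintro _ ⟨i, rfl⟩
  have h1 : - UniversalEnvelopingAlgebra.ι F (b (i + 1 - 1)) ∈ Algebra.adjoin F
      (Set.range fun n : ℤ => - UniversalEnvelopingAlgebra.ι F (b (n - 1))) :=
    Algebra.subset_adjoin ⟨i + 1, rfl⟩
  have h2 := Subalgebra.neg_mem _ h1
  rwa [neg_neg, add_sub_cancel_right] at h2

end

/-- The enveloping algebra of the Witt algebra over a field of characteristic zero satisfies the
ascending chain condition on two-sided ideals. -/
theorem result (F : Type u) [Field F] [CharZero F] (L : Type v) [LieRing L] [LieAlgebra F L]
    (hL : IsWitt F L) (I : ℕ → TwoSidedIdeal (UniversalEnvelopingAlgebra F L))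
    (hI : Monotone I) : ∃ n, ∀ m, n ≤ m → I m = I n :=
  acc_witt hL I hI

end Pool.Agent.Results.MP_e28a79_al.ChainAllIdeals
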